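import Pool.Agent.Helper45.ML.Defs
import Pool.Agent.Helper99.ML.PI
import Pool.Agent.Helper29.M.QW

/-!
# Project ML, block QW
-/

set_option autoImplicit false
set_option maxHeartbeats 1000000

namespace Pool.Agent.ML

open VC IntermediateField NumberField IsDedekindDomain Pool.Agent.SC
open Pool.Agent.L (Inert L0 MM SamePlace OverV)
open Pool.Agent.LN (Geo Act HasSec GoodCurve IsRam DecPt)
open Pool.Agent.M (UR NN Moves OverPl inL0 root_const99 eig99 map_L0_99 map_UR99 UR_mul29 UR_inv29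
  UR_L0_29 LU29 AU29 lift29 exists_G29 finite_AG29 pow_AG29 count29 cyc29 w1U29)
open Pool.Agent.HG (Pr nm Ctx Gd)

noncomputable section

/-- the order of a commutative group of exponent `ℓ ^ s` -/
theorem card_exp37 {H : Type} [CommGroup H] [Finite H] {ℓ N : ℕ}
    (h2 : Nat.card {x : H // x ^ ℓ = 1} ≤ N) (s : ℕ) :
    Nat.card {x : H // x ^ ℓ ^ s = 1} ≤ N ^ s := by
  induction s with
  | zero =>
    have h1 : Subsingleton {x : H // x ^ ℓ ^ 0 = 1} := ⟨fun x y => Subtype.ext (by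
      have h3 : (x : H) ^ ℓ ^ 0 = 1 := x.2
      have h4 : (y : H) ^ ℓ ^ 0 = 1 := y.2
      simp only [pow_zero, pow_one] at h3 h4
      exact h3.trans h4.symm)⟩
    rw [pow_zero]
    exact Finite.card_le_one_iff_subsingleton.2 h1
  | succ s ih =>
    have h1 : Nat.card (powMonoidHom (ℓ ^ (s + 1)) : H →* H).ker ≤
        Nat.card {x : H // x ^ ℓ = 1} * Nat.card {x : H // x ^ ℓ ^ s = 1} := by
      let f : (powMonoidHom (ℓ ^ (s + 1)) : H →* H).ker →* H :=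
        (powMonoidHom ℓ).comp (Subgroup.subtype _)
      have h3 : Nat.card f.ker * Nat.card f.range =
          Nat.card (powMonoidHom (ℓ ^ (s + 1)) : H →* H).ker := by
        rw [← Subgroup.index_ker, Subgroup.card_mul_index]
      rw [← h3]
      refine Nat.mul_le_mul ?_ ?_
      · refine Nat.card_le_card_of_injective (fun x : f.ker => (⟨x.1.1, ?_⟩ : {x : H // x ^ ℓ = 1})) ?_
        · exact x.2
        · intro x y hxy
          exact Subtype.ext (Subtype.ext (Subtype.mk.inj hxy))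
      · refine Nat.card_le_card_of_injective
          (fun x : f.range => (⟨x.1, ?_⟩ : {x : H // x ^ ℓ ^ s = 1})) ?_
        · obtain ⟨y, hy⟩ := x.2
          have h4 : (y : H) ^ ℓ ^ (s + 1) = 1 := y.2
          have h5 : (y : H) ^ ℓ = x.1 := hy
          rw [← h5, ← pow_mul, ← pow_succ', h4]
        · intro x y hxy
          exact Subtype.ext (Subtype.mk.inj hxy)
    have h2' : Nat.card {x : H // x ^ ℓ ^ (s + 1) = 1} =
        Nat.card (powMonoidHom (ℓ ^ (s + 1)) : H →* H).ker := by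
      refine Nat.card_congr (Equiv.subtypeEquivRight fun x => ?_)
      exact Iff.rfl
    rw [h2', pow_succ' N]
    exact h1.trans (Nat.mul_le_mul h2 ih)

/-- a large commutative `ℓ`-group with few elements of order `ℓ` has elements of large order -/
theorem exists_order37 {H : Type} [CommGroup H] [Finite H] {ℓ n₀ s m : ℕ} (hℓ : ℓ.Prime)
    (hn₀ : 0 < n₀) (hs : 0 < s) (h2 : Nat.card {x : H // x ^ ℓ = 1} ≤ ℓ ^ n₀)
    (hm : ∀ x : H, x ^ ℓ ^ m = 1) (hH : ℓ ^ (n₀ * s) ≤ Nat.card H) :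
    ∃ x : H, orderOf x = ℓ ^ s := by
  obtain ⟨x, hx⟩ : ∃ x : H, x ^ ℓ ^ (s - 1) ≠ 1 := by
    by_contra hcon
    push Not at hcon
    have h3 := card_exp37 h2 (s - 1)
    have h4 : Nat.card {x : H // x ^ ℓ ^ (s - 1) = 1} = Nat.card H :=
      Nat.card_congr (Equiv.subtypeUnivEquiv hcon)
    rw [h4, ← pow_mul] at h3
    have h5 := hH.trans h3
    have h6 := (Nat.pow_le_pow_iff_right hℓ.one_lt).1 h5
    have h7 : s ≤ s - 1 := Nat.le_of_mul_le_mul_left h6 hn₀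
    omega
  obtain ⟨t, ht, hot⟩ := (Nat.dvd_prime_pow hℓ).1 (orderOf_dvd_of_pow_eq_one (hm x))
  have hst : s ≤ t := by
    by_contra hcon
    push Not at hcon
    apply hx
    rw [← orderOf_dvd_iff_pow_eq_one, hot]
    exact pow_dvd_pow _ (by omega)
  refine ⟨x ^ ℓ ^ (t - s), ?_⟩
  rw [orderOf_pow' _ (pow_ne_zero _ hℓ.ne_zero), hot, Nat.gcd_eq_right (pow_dvd_pow _ (by omega)),
    Nat.pow_div (by omega) hℓ.pos]
  congr 1
  omega

section grp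

variable {E K0 U : Type} [Field E] [IsAlgClosed E] [CharZero E] [Field K0] [Field U] [Algebra E U]
  [Algebra K0 U]

omit [CharZero E] in
theorem UR_low37 (ff : IsFunctionField E (L0 E K0 (U := U))) {ℓ m s : ℕ} (hℓ : 0 < ℓ)
    (hs : s ≤ m) {w : U} (h : UR E K0 (ℓ ^ m) w) (hw : w ^ ℓ ^ s ∈ L0 E K0 (U := U)) :
    UR E K0 (ℓ ^ s) w := by
  obtain ⟨hw0, f, hf, hd⟩ := h
  have hg0 : (⟨w ^ ℓ ^ s, hw⟩ : L0 E K0 (U := U)) ≠ 0 := fun h1 =>
    pow_ne_zero _ hw0 (congrArg Subtype.val h1)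
  refine ⟨hw0, ⟨w ^ ℓ ^ s, hw⟩, rfl, fun P => ?_⟩
  have h1 : f = (⟨w ^ ℓ ^ s, hw⟩ : L0 E K0 (U := U)) ^ ℓ ^ (m - s) := by
    apply Subtype.ext
    rw [hf]
    change _ = (w ^ ℓ ^ s) ^ ℓ ^ (m - s)
    rw [← pow_mul, ← pow_add]
    congr 2
    omega
  have h2 := hd P
  rw [h1, FF.ord_pow ff P hg0] at h2
  have h3 : ((ℓ ^ m : ℕ) : ℤ) = ((ℓ ^ (m - s) : ℕ) : ℤ) * ((ℓ ^ s : ℕ) : ℤ) := by
    rw [← Nat.cast_mul, ← pow_add]
    congr 2
    omega
  rw [h3] at h2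
  exact Int.dvd_of_mul_dvd_mul_left
    (by exact_mod_cast (pow_pos hℓ _).ne') h2

/-- the map `UR (ℓ ^ m) → UR ℓ`, the power `ℓ ^ (m - 1)`, is onto modulo `L0` -/
theorem div37 (ff : IsFunctionField E (L0 E K0 (U := U)))
    (hroot : ∀ (n : ℕ), 0 < n → ∀ f : L0 E K0 (U := U), f ≠ 0 →
      (∀ P : Place E (L0 E K0 (U := U)), (n : ℤ) ∣ ord P.ring f) → ∃ w : U, w ^ n = f)
    {ℓ : ℕ} (hℓ : 0 < ℓ) {w₂ : U} (hw₂ : UR E K0 ℓ w₂) {m : ℕ} (hm : 0 < m) :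
    ∃ w : U, UR E K0 (ℓ ^ m) w ∧ ∃ l ∈ L0 E K0 (U := U), l ≠ 0 ∧ w ^ ℓ ^ (m - 1) = l * w₂ := by
  classical
  obtain ⟨hw0, f, hf, hd⟩ := hw₂
  have hf0 : f ≠ 0 := by
    rintro rfl
    exact pow_ne_zero _ hw0 hf.symm
  have hℓZ : (ℓ : ℤ) ≠ 0 := by exact_mod_cast hℓ.ne'
  let D : Place E (L0 E K0 (U := U)) →₀ ℤ :=
    (FF.dv ff f).mapRange (fun z => z / (ℓ : ℤ)) (Int.zero_ediv _)
  have hD : ∀ P, ord P.ring f = (ℓ : ℤ) * D P := by
    intro P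
    change ord P.ring f = (ℓ : ℤ) * (ord P.ring f / (ℓ : ℤ))
    exact (Int.mul_ediv_cancel' (hd P)).symm
  have hdv : FF.dv ff f = (ℓ : ℕ) • D := by
    ext P
    rw [Finsupp.smul_apply, FF.dv_apply, hD P, nsmul_eq_mul]
  have hdeg : FF.deg D = 0 := by
    have h1 : FF.deg (FF.dv ff f) = 0 := FF.deg_dv ff hf0
    rw [hdv, map_nsmul, nsmul_eq_mul] at h1
    exact (mul_eq_zero.1 h1).resolve_left hℓZ
  rw [FF.deg_eq] at hdeg
  obtain ⟨D', c, hc0, hc⟩ := FF.picDiv ff (ℓ ^ (m - 1)) (pow_pos hℓ _) D hdeg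
  have hg0 : f / c ^ ℓ ≠ 0 := div_ne_zero hf0 (pow_ne_zero _ hc0)
  have hg : ∀ P : Place E (L0 E K0 (U := U)), ((ℓ ^ m : ℕ) : ℤ) ∣ ord P.ring (f / c ^ ℓ) := by
    intro P
    rw [FF.ord_div ff P hf0 (pow_ne_zero _ hc0), FF.ord_pow ff P hc0, hD P, hc P]
    refine ⟨D' P, ?_⟩
    obtain ⟨m', rfl⟩ : ∃ m', m = m' + 1 := ⟨m - 1, by omega⟩
    rw [Nat.add_sub_cancel]
    push_cast
    ring
  obtain ⟨w, hw⟩ := hroot (ℓ ^ m) (pow_pos hℓ _) _ hg0 hg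
  have hcU0 : (c : U) ≠ 0 := fun h => hc0 (Subtype.ext h)
  have hwn : w ^ ℓ ^ m = (w₂ / c) ^ ℓ := by
    rw [hw, div_pow, ← hf]
    rfl
  have hww0 : w ≠ 0 := by
    rintro rfl
    rw [zero_pow (pow_pos hℓ _).ne'] at hwn
    exact pow_ne_zero ℓ (div_ne_zero hw0 hcU0) hwn.symm
  refine ⟨w, ⟨hww0, f / c ^ ℓ, hw.symm, hg⟩, ?_⟩
  have h1 : (w ^ ℓ ^ (m - 1) / (w₂ / c)) ^ ℓ = 1 := by
    rw [div_pow, ← hwn, ← pow_mul, ← pow_succ, Nat.sub_add_cancel hm, div_self]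
    exact pow_ne_zero _ hww0
  obtain ⟨ζ, hζ, hζu⟩ := root_const99 (E := E) hℓ h1
  have hζ0 : ζ ≠ 0 := by
    rintro rfl
    rw [zero_pow hℓ.ne'] at hζ
    exact zero_ne_one hζ
  refine ⟨algebraMap E U ζ * (c : U)⁻¹,
    mul_mem (IntermediateField.algebraMap_mem _ _) (inv_mem c.2),
    mul_ne_zero ((map_ne_zero _).2 hζ0) (inv_ne_zero hcU0), ?_⟩
  rw [hζu]
  field_simp

variable {G : Type} [CommGroup G] {κ : Uˣ →* G}

/-- a large subgroup contains a class of large order -/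
theorem ext37 (hκ : ∀ u : Uˣ, κ u = 1 ↔ (u : U) ∈ L0 E K0 (U := U)) (hFT : M.StmtFT)
    (ff : IsFunctionField E (L0 E K0 (U := U))) {ℓ m s n₀ : ℕ} (hℓ : ℓ.Prime)
    (hm : 0 < m) (hs : 0 < s) (hn₀ : 0 < n₀) (h2 : Nat.card ((AU29 ff ℓ).map κ) ≤ ℓ ^ n₀)
    (H : Subgroup G) (hH : H ≤ (AU29 ff (ℓ ^ m)).map κ) (hcard : ℓ ^ (n₀ * s) ≤ Nat.card H) :
    ∃ u : Uˣ, κ u ∈ H ∧ orderOf (κ u) = ℓ ^ s ∧ s ≤ m ∧ UR E K0 (ℓ ^ s) (u : U) := by
  have hfin : Finite ((AU29 ff (ℓ ^ m)).map κ) := finite_AG29 hκ hFT ff (pow_pos hℓ.pos _)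
  have hfin2 : Finite ((AU29 ff ℓ).map κ) := finite_AG29 hκ hFT ff hℓ.pos
  have hfinH : Finite H := Finite.of_injective _ (Subgroup.inclusion_injective hH)
  have h3 : Nat.card {x : H // x ^ ℓ = 1} ≤ ℓ ^ n₀ := by
    refine le_trans ?_ h2
    have h4 : ∀ x : {x : H // x ^ ℓ = 1}, (x.1.1 : G) ∈ (AU29 ff ℓ).map κ := by
      rintro ⟨⟨x, hx⟩, hx2⟩
      obtain ⟨u, hu, rfl⟩ := hH hx
      refine ⟨u, ?_, rfl⟩
      have h5 : (κ u) ^ ℓ = 1 := congrArg Subtype.val hx2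
      rw [← map_pow, hκ, Units.val_pow_eq_pow_val] at h5
      have h6 := UR_low37 (s := 1) ff hℓ.pos (by omega : 1 ≤ m) hu (by rwa [pow_one])
      rwa [pow_one] at h6
    refine Nat.card_le_card_of_injective
      (fun x : {x : H // x ^ ℓ = 1} => (⟨x.1.1, h4 x⟩ : (AU29 ff ℓ).map κ)) ?_
    intro x y hxy
    exact Subtype.ext (Subtype.ext (Subtype.mk.inj hxy))
  obtain ⟨x, hx⟩ := exists_order37 (H := H) hℓ hn₀ hs h3 (m := m) (fun x => by
    apply Subtype.ext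
    rw [Subgroup.coe_pow]
    exact pow_AG29 hκ ff (hH x.2)) hcard
  obtain ⟨u, hu, hux⟩ := hH x.2
  have ho : orderOf (κ u) = ℓ ^ s := by
    rw [hux, Subgroup.orderOf_coe, hx]
  have hsm : s ≤ m := by
    have h4 : orderOf (κ u) ∣ ℓ ^ m := by
      apply orderOf_dvd_of_pow_eq_one
      rw [hux]
      exact pow_AG29 hκ ff (hH x.2)
    rw [ho] at h4
    exact (Nat.pow_dvd_pow_iff_le_right hℓ.one_lt).1 h4
  refine ⟨u, by rw [hux]; exact x.2, ho, hsm, UR_low37 ff hℓ.pos hsm hu ?_⟩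
  rw [← Units.val_pow_eq_pow_val, ← hκ, map_pow, ← ho, pow_orderOf_eq_one]

end grp

/-- **BLOCK QW.** -/
theorem qW (hFT : M.StmtFT) (hW1 : M.StmtW1) : StmtQW := by
  classical
  intro k K0 E U _ _ _ _ _ _ _ _ _ _ _ _ n ℓ h r hn0 hℓ hℓn hμ geo
  have hcl : IsAlgClosed E := geo.clE
  have hch : CharZero E := charZero_of_injective_algebraMap (algebraMap k E).injective
  have ff := geo.ff
  have hroot : ∀ (n : ℕ), 0 < n → ∀ f : L0 E K0 (U := U), f ≠ 0 →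
      (∀ P : Place E (L0 E K0 (U := U)), (n : ℤ) ∣ ord P.ring f) → ∃ w : U, w ^ n = f :=
    fun n hn f hf hord => exists_root_of_dvd geo.cover.root ff hn hf hord
  have hpr : Fact ℓ.Prime := ⟨hℓ⟩
  obtain ⟨G, _, κ, hκs, hκ⟩ := exists_G29 E K0 U
  have hfinA : ∀ n : ℕ, 0 < n → Finite ((AU29 ff n).map κ) := fun n hn => finite_AG29 hκ hFT ff hn
  have hfin2 : Finite ((AU29 ff ℓ).map κ) := hfinA ℓ hℓ.pos
  obtain ⟨n₀, hn₀⟩ : ∃ n₀, n₀ = Nat.card ((AU29 ff ℓ).map κ) := ⟨_, rfl⟩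
  have hn₀0 : 0 < n₀ := by
    rw [hn₀]
    exact Nat.card_pos
  have h2 : Nat.card ((AU29 ff ℓ).map κ) ≤ ℓ ^ n₀ := by
    rw [← hn₀]
    exact (Nat.lt_pow_self hℓ.one_lt).le
  refine ⟨n₀ * n₀, Nat.mul_pos hn₀0 hn₀0, ?_⟩
  rintro c Φ hc hΦ j σ hj ⟨a, haL, hcomm, w₂, hw₂, haw₂⟩
  obtain ⟨s, hs⟩ : ∃ s, s = n₀ * j := ⟨_, rfl⟩
  have hs0 : 0 < s := by
    rw [hs]
    exact Nat.mul_pos hn₀0 hj
  obtain ⟨m, hm⟩ : ∃ m, m = n₀ * s := ⟨_, rfl⟩
  have hm0 : 0 < m := by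
    rw [hm]
    exact Nat.mul_pos hn₀0 hs0
  have hmj : n₀ * n₀ * j = m := by rw [hm, hs, mul_assoc]
  rw [hmj] at hcomm
  obtain ⟨φ, hφ⟩ : ∃ φ, φ = Φ σ := ⟨_, rfl⟩
  rw [← hφ] at hcomm ⊢
  have hφE : ∀ e : E, φ (algebraMap E U e) = algebraMap E U (σ e) := by
    rw [hφ]
    exact hΦ.const σ
  have hΦL : ∀ (g : E ≃ₐ[k] E) (x : U), x ∈ L0 E K0 (U := U) → Φ g x ∈ L0 E K0 (U := U) :=
    fun g x hx => map_L0_99 (Φ g) g (hΦ.const g) (hΦ.fixK g) hx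
  have hinv : ∀ x : U, Φ σ⁻¹ (φ x) = x := by
    intro x
    have h1 : Φ σ⁻¹ * Φ σ = 1 := by rw [← map_mul, inv_mul_cancel, map_one]
    rw [hφ]
    exact congrArg (fun g : U ≃+* U => g x) h1
  have hinv' : ∀ x : U, φ (Φ σ⁻¹ x) = x := by
    intro x
    have h1 : Φ σ * Φ σ⁻¹ = 1 := by rw [← map_mul, mul_inv_cancel, map_one]
    rw [hφ]
    exact congrArg (fun g : U ≃+* U => g x) h1
  have hφL : ∀ x : U, x ∈ L0 E K0 (U := U) ↔ φ x ∈ L0 E K0 (U := U) := by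
    intro x
    constructor
    · intro hx
      rw [hφ]
      exact hΦL σ x hx
    · intro hx
      rw [← hinv x]
      exact hΦL σ⁻¹ _ hx
  have hφUR : ∀ (n : ℕ) (w : U), UR E K0 n w → UR E K0 n (φ w) := by
    intro n w hw
    exact map_UR99 ff φ (Φ σ⁻¹) σ hφE (by rw [hφ]; exact hΦ.fixK σ) (fun e => hΦ.const σ⁻¹ e)
      (hΦ.fixK σ⁻¹) hinv' hinv hw
  obtain ⟨χ, hχ⟩ := cyc29 (E := E) σ.toRingEquiv (n := ℓ ^ m) (pow_pos hℓ.pos _)
  -- the action on the classes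
  let φu : Uˣ →* Uˣ := Units.map (φ : U →* U)
  have hφu : ∀ u : Uˣ, ((φu u : Uˣ) : U) = φ u := fun u => rfl
  obtain ⟨φG, hφG⟩ := lift29 κ hκs (κ.comp φu) (fun u hu => by
    rw [MonoidHom.comp_apply, hκ, hφu]
    rw [hκ] at hu
    exact (hφL _).1 hu)
  rw [MonoidHom.coe_comp] at hφG
  simp only [Function.comp_apply] at hφG
  obtain ⟨A, hA⟩ : ∃ A : ℕ → Subgroup G, A = fun n => (AU29 ff n).map κ := ⟨_, rfl⟩
  have hAm : ∀ n, A n = (AU29 ff n).map κ := fun n => by rw [hA]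
  have hφA : ∀ (n : ℕ), ∀ x ∈ A n, φG x ∈ A n := by
    intro n x hx
    rw [hAm] at hx ⊢
    obtain ⟨u, hu, rfl⟩ := hx
    exact ⟨φu u, hφUR n u hu, (hφG u).symm⟩
  have hfinA' : ∀ n : ℕ, 0 < n → Finite (A n) := fun n hn => by
    rw [hAm]
    exact hfinA n hn
  have hfinm : Finite (A (ℓ ^ m)) := hfinA' _ (pow_pos hℓ.pos _)
  let ψ : A (ℓ ^ m) →* A (ℓ ^ m) :=
    { toFun := fun x => ⟨φG x / (x : G) ^ χ,
        Subgroup.div_mem _ (hφA _ _ x.2) (Subgroup.pow_mem _ x.2 _)⟩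
      map_one' := Subtype.ext (by
        change φG 1 / 1 ^ χ = 1
        rw [map_one, one_pow, div_one])
      map_mul' := fun x y => Subtype.ext (by
        change φG ((x : G) * y) / ((x : G) * y) ^ χ = (φG x / (x : G) ^ χ) * (φG y / (y : G) ^ χ)
        rw [map_mul, mul_pow, mul_div_mul_comm]) }
  have hψ : ∀ x : A (ℓ ^ m), ((ψ x : A (ℓ ^ m)) : G) = φG x / (x : G) ^ χ := fun x => rfl
  -- the character given by `a`
  let cU : Uˣ →* Uˣ := Units.map (a : U →* U) / MonoidHom.id Uˣ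
  have hcU : ∀ u : Uˣ, ((cU u : Uˣ) : U) = a u / u := by
    intro u
    change ((Units.map (a : U →* U) u / u : Uˣ) : U) = _
    rw [Units.val_div_eq_div_val]
    rfl
  obtain ⟨cG, hcG⟩ := lift29 κ hκs cU (by
    intro u hu
    rw [hκ] at hu
    apply Units.ext
    rw [hcU, haL _ hu, div_self u.ne_zero, Units.val_one])
  have hcount := count29 ψ (cG.comp (A (ℓ ^ m)).subtype) (by
    rintro ⟨x, hx⟩
    change cG (φG x / x ^ χ) = 1
    rw [hAm] at hx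
    obtain ⟨u, hu, rfl⟩ := hx
    rw [map_div, map_pow, hφG, hcG, hcG]
    obtain ⟨ζ, hζ, haw⟩ := eig99 (E := E) (K0 := K0) (pow_pos hℓ.pos m : 0 < ℓ ^ m) hu a haL
    have hu0 : (u : U) ≠ 0 := u.ne_zero
    have hφu0 : φ (u : U) ≠ 0 := (map_ne_zero φ).2 hu0
    apply Units.ext
    rw [Units.val_div_eq_div_val, Units.val_pow_eq_pow_val, hcU, hcU, hφu, hcomm _ hu, haw,
      map_mul, hφE, mul_div_cancel_right₀ _ hφu0, mul_div_cancel_right₀ _ hu0]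
    have h5 : σ ζ = ζ ^ χ := hχ ζ hζ
    rw [h5, map_pow, Units.val_one, div_self]
    refine pow_ne_zero _ ((map_ne_zero _).2 ?_)
    rintro rfl
    rw [zero_pow (pow_pos hℓ.pos _).ne'] at hζ
    exact zero_ne_one hζ)
  -- the image of the character is large
  have hrange : ℓ ^ m ≤ Nat.card (cG.comp (A (ℓ ^ m)).subtype).range := by
    obtain ⟨w, hw, l, hl, hl0, hwl⟩ := div37 ff hroot hℓ.pos hw₂ hm0
    have hw0 : w ≠ 0 := hw.1
    have hw20 : w₂ ≠ 0 := hw₂.1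
    obtain ⟨u, hu⟩ : ∃ u : Uˣ, (u : U) = w := ⟨Units.mk0 w hw0, rfl⟩
    have huA : κ u ∈ A (ℓ ^ m) := by
      rw [hAm]
      exact ⟨u, by
        change UR E K0 (ℓ ^ m) (u : U)
        rw [hu]
        exact hw, rfl⟩
    have hmem : cU u ∈ (cG.comp (A (ℓ ^ m)).subtype).range := ⟨⟨_, huA⟩, hcG u⟩
    have h6 : (cU u) ^ ℓ ^ m = 1 := by
      obtain ⟨ζ, hζ, haw⟩ := eig99 (E := E) (K0 := K0) (pow_pos hℓ.pos m : 0 < ℓ ^ m) hw a haL
      apply Units.ext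
      rw [Units.val_pow_eq_pow_val, hcU, hu, haw, mul_div_cancel_right₀ _ hw0, ← map_pow, hζ,
        map_one, Units.val_one]
    have h7 : (cU u) ^ ℓ ^ (m - 1) ≠ 1 := by
      intro h8
      have h9 : ((cU u : Uˣ) : U) ^ ℓ ^ (m - 1) = 1 := by
        rw [← Units.val_pow_eq_pow_val, h8, Units.val_one]
      rw [hcU, hu, div_pow, ← map_pow, hwl, map_mul, haL l hl,
        div_eq_one_iff_eq (mul_ne_zero hl0 hw20)] at h9
      exact haw₂ (mul_left_cancel₀ hl0 h9)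
    have h8 : orderOf (cU u) = ℓ ^ m := by
      obtain ⟨m', rfl⟩ : ∃ m', m = m' + 1 := ⟨m - 1, by omega⟩
      exact orderOf_eq_prime_pow (p := ℓ) h7 h6
    have hfr : Finite (cG.comp (A (ℓ ^ m)).subtype).range :=
      Finite.of_surjective _ (MonoidHom.rangeRestrict_surjective (cG.comp (A (ℓ ^ m)).subtype))
    have h9 : orderOf (⟨cU u, hmem⟩ : (cG.comp (A (ℓ ^ m)).subtype).range) = orderOf (cU u) :=
      Subgroup.orderOf_mk _ _
    have h10 := orderOf_le_card (x := (⟨cU u, hmem⟩ : (cG.comp (A (ℓ ^ m)).subtype).range))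
    rwa [h9, h8] at h10
  -- a class multiplied by the cyclotomic character
  obtain ⟨u, huH, huo, hsm, huUR⟩ := ext37 hκ hFT ff hℓ hm0 hs0 hn₀0 h2
    (ψ.ker.map (A (ℓ ^ m)).subtype) (by
      rintro _ ⟨x, -, rfl⟩
      rw [← hAm]
      exact x.2) (by
      rw [← hm, Subgroup.card_map_of_injective (Subgroup.subtype_injective _)]
      exact hrange.trans hcount)
  obtain ⟨x, hx, hxu⟩ := huH
  have hxψ : φG (κ u) = (κ u) ^ χ := by
    have h5 : ((ψ x : A (ℓ ^ m)) : G) = 1 := congrArg Subtype.val hx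
    rw [hψ, div_eq_one] at h5
    have h6 : (x : G) = κ u := hxu
    rwa [h6] at h5
  have hφw : ∃ l ∈ L0 E K0 (U := U), φ (u : U) = l * (u : U) ^ χ := by
    rw [hφG, ← map_pow, ← div_eq_one, ← map_div, hκ, Units.val_div_eq_div_val,
      Units.val_pow_eq_pow_val, hφu] at hxψ
    exact ⟨_, hxψ, by rw [div_mul_cancel₀ _ (pow_ne_zero _ u.ne_zero)]⟩
  have hpm : ∀ j : ℕ, (u : U) ^ j ∈ L0 E K0 (U := U) → ℓ ^ s ∣ j := by
    intro j hj
    rw [← huo]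
    apply orderOf_dvd_of_pow_eq_one
    rw [← map_pow, hκ, Units.val_pow_eq_pow_val]
    exact hj
  obtain ⟨-, fw, hfw, hfd⟩ := huUR
  obtain ⟨f, hf⟩ := w1U29 hW1 (L0 E K0 (U := U)) ff (n := ℓ ^ s)
    (Nat.one_lt_pow hs0.ne' hℓ.one_lt) u.ne_zero fw hfw hfd (fun j h1 h3 h4 =>
      absurd (Nat.le_of_dvd h1 (hpm j h4)) (not_le.2 h3)) φ σ.toRingEquiv χ hφE hφL
    (fun ζ hζ => hχ ζ (by
      obtain ⟨i, hi⟩ : ∃ i, m = s + i := ⟨m - s, by omega⟩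
      rw [hi, pow_add, pow_mul, hζ, one_pow])) hφw
  -- the fixed classes
  choose g hg using fun i => hroot (ℓ ^ s) (pow_pos hℓ.pos _) (f i) (hf i).1 (hf i).2.1
  have hg0 : ∀ i, g i ≠ 0 := by
    intro i h0
    have h5 := hg i
    rw [h0, zero_pow (pow_pos hℓ.pos _).ne'] at h5
    exact (hf i).1 (Subtype.ext h5.symm)
  have hfins : Finite (A (ℓ ^ s)) := hfinA' _ (pow_pos hℓ.pos _)
  let θ : A (ℓ ^ s) →* A (ℓ ^ s) :=
    { toFun := fun x => ⟨φG x / (x : G),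
        Subgroup.div_mem _ (hφA _ _ x.2) x.2⟩
      map_one' := Subtype.ext (by
        change φG 1 / 1 = 1
        rw [map_one, div_one])
      map_mul' := fun x y => Subtype.ext (by
        change φG ((x : G) * y) / ((x : G) * y) =
          (φG x / (x : G)) * (φG y / (y : G))
        rw [map_mul, mul_div_mul_comm]) }
  have hθ : ∀ x : A (ℓ ^ s), ((θ x : A (ℓ ^ s)) : G) =
      φG x / (x : G) := fun x => rfl
  have hgA : ∀ i, κ (Units.mk0 (g i) (hg0 i)) ∈ A (ℓ ^ s) := fun i => by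
    rw [hAm]
    exact ⟨Units.mk0 (g i) (hg0 i), ⟨hg0 i, f i, (hg i).symm, (hf i).2.1⟩, rfl⟩
  have hgker : ∀ i, (⟨_, hgA i⟩ : A (ℓ ^ s)) ∈ θ.ker := by
    intro i
    rw [MonoidHom.mem_ker]
    apply Subtype.ext
    rw [hθ]
    change φG (κ (Units.mk0 (g i) (hg0 i))) /
      κ (Units.mk0 (g i) (hg0 i)) = 1
    rw [hφG, ← map_div, hκ, Units.val_div_eq_div_val, hφu, Units.val_mk0]
    obtain ⟨l, hl, h5⟩ := (hf i).2.2.1
    have hl0 : l ≠ 0 := by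
      rintro rfl
      rw [zero_pow (pow_pos hℓ.pos _).ne', mul_zero, map_eq_zero] at h5
      exact (hf i).1 (Subtype.ext h5)
    have h6 : (φ (g i) / (g i * l)) ^ ℓ ^ s = 1 := by
      rw [div_pow, ← map_pow, hg, h5, mul_pow, hg, div_self]
      refine mul_ne_zero ?_ (pow_ne_zero _ hl0)
      exact fun h7 => (hf i).1 (Subtype.ext h7)
    obtain ⟨ζ, -, hζ⟩ := root_const99 (E := E) (pow_pos hℓ.pos _) h6
    have h7 : φ (g i) / g i = algebraMap E U ζ * l := by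
      rw [hζ]
      have := hg0 i
      field_simp
    rw [h7]
    exact mul_mem (IntermediateField.algebraMap_mem _ _) hl
  have hcardθ : ℓ ^ s ≤ Nat.card θ.ker := by
    have h5 : Function.Injective (fun i : Fin (ℓ ^ s) => (⟨_, hgker i⟩ : θ.ker)) := by
      intro i i' hii
      by_contra hne
      have h6 : κ (Units.mk0 (g i) (hg0 i)) =
          κ (Units.mk0 (g i') (hg0 i')) :=
        congrArg (fun x : θ.ker => ((x : A (ℓ ^ s)) : G)) hii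
      rw [← div_eq_one, ← map_div, hκ, Units.val_div_eq_div_val, Units.val_mk0,
        Units.val_mk0] at h6
      refine (hf i).2.2.2 i' (fun h => hne h.symm) ⟨_, h6⟩ ?_
      apply Subtype.ext
      change (f i : U) = (f i' : U) * (g i / g i') ^ ℓ ^ s
      rw [← hg, ← hg, div_pow, mul_div_cancel₀ _ (pow_ne_zero _ (hg0 i'))]
    have h6 := Nat.card_le_card_of_injective _ h5
    rwa [Nat.card_eq_fintype_card, Fintype.card_fin] at h6
  obtain ⟨v, hvH, hvo, hjs, hvUR⟩ := ext37 hκ hFT ff hℓ hs0 hj hn₀0 h2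
    (θ.ker.map (A (ℓ ^ s)).subtype) (by
      rintro _ ⟨x, -, rfl⟩
      rw [← hAm]
      exact x.2) (by
      rw [← hs, Subgroup.card_map_of_injective (Subgroup.subtype_injective _)]
      exact hcardθ)
  obtain ⟨y, hy, hyv⟩ := hvH
  refine ⟨v, hvUR, fun h5 => ?_, ?_⟩
  · have h6 : (κ v) ^ ℓ ^ (j - 1) = 1 := by
      rw [← map_pow, hκ, Units.val_pow_eq_pow_val]
      exact h5
    have h7 := orderOf_dvd_of_pow_eq_one h6
    rw [hvo] at h7
    have h8 := (Nat.pow_dvd_pow_iff_le_right hℓ.one_lt).1 h7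
    omega
  · have h5 : ((θ y : A (ℓ ^ s)) : G) = 1 := congrArg Subtype.val hy
    have h6 : (y : G) = κ v := hyv
    rw [hθ, h6, hφG, ← map_div, hκ, Units.val_div_eq_div_val, hφu, div_eq_mul_inv] at h5
    exact h5

end

end Pool.Agent.ML
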